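import Pool.Agent.Helper1.KL.GeneralB

set_option autoImplicit false

/-!
Project KL (MP_0b9e0b_ag), KL-3: the translations `tr h` of the points of `X`, the sums `SH`
and `SS`, and the Fourier decomposition of the class of a point.
-/

namespace Pool.Agent.Helper57.KL

open Pool.Agent.Helper16 Pool.Agent.Helper1.KL Finset

/-! ### Coordinates of translates -/

section coord

variable {p n : ℕ} {N : Type} [Field N]

theorem tr_inl (h : Fin n → ZMod p) (z : Fin n ⊕ Fin n → Option N) (i : Fin n) :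
    tr h z (Sum.inl i) = z (Sum.inl i) := rfl

theorem tr_inr (h : Fin n → ZMod p) (z : Fin n ⊕ Fin n → Option N) (i : Fin n) :
    tr h z (Sum.inr i) = (z (Sum.inr i)).map fun c => c + (h i).cast := rfl

theorem xc_tr (h : Fin n → ZMod p) (z : Fin n ⊕ Fin n → Option N) (i : Fin n) :
    xc (tr h z) i = xc z i := rfl

theorem xpt_tr (h : Fin n → ZMod p) (z : Fin n ⊕ Fin n → Option N) :
    xpt (tr h z) = xpt z := rfl

theorem tr_inr_eq_none (h : Fin n → ZMod p) (z : Fin n ⊕ Fin n → Option N) (i : Fin n) :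
    tr h z (Sum.inr i) = none ↔ z (Sum.inr i) = none := by
  rw [tr_inr, Option.map_eq_none_iff]

theorem yc_tr_of_some (h : Fin n → ZMod p) {z : Fin n ⊕ Fin n → Option N} {i : Fin n}
    (hi : z (Sum.inr i) ≠ none) : yc (tr h z) i = yc z i + (h i).cast := by
  obtain ⟨c, hc⟩ := Option.ne_none_iff_exists'.1 hi
  unfold yc
  rw [tr_inr, hc]
  rfl

theorem yc_tr_of_none (h : Fin n → ZMod p) {z : Fin n ⊕ Fin n → Option N} {i : Fin n}
    (hi : z (Sum.inr i) = none) : yc (tr h z) i = 0 := by
  unfold yc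
  rw [tr_inr, hi]
  rfl

theorem yc_of_none {z : Fin n ⊕ Fin n → Option N} {i : Fin n}
    (hi : z (Sum.inr i) = none) : yc z i = 0 := by
  unfold yc
  rw [hi]
  rfl

omit [Field N] in
theorem mem_aff {z : Fin n ⊕ Fin n → Option N} {i : Fin n} :
    i ∈ aff z ↔ z (Sum.inr i) ≠ none := by
  classical
  unfold aff
  rw [Finset.mem_filter_univ]

theorem aff_tr (h : Fin n → ZMod p) (z : Fin n ⊕ Fin n → Option N) : aff (tr h z) = aff z := by
  ext i
  rw [mem_aff, mem_aff, not_iff_not, tr_inr_eq_none]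

theorem Xc_tr (ρ h : Fin n → ZMod p) (z : Fin n ⊕ Fin n → Option N) :
    Xc ρ (tr h z) = Xc ρ z := rfl

theorem tr_zero (z : Fin n ⊕ Fin n → Option N) : tr (0 : Fin n → ZMod p) z = z := by
  funext j
  rcases j with i | i
  · rfl
  · rw [tr_inr]
    simp

theorem tr_tr [CharP N p] (h h' : Fin n → ZMod p) (z : Fin n ⊕ Fin n → Option N) :
    tr h (tr h' z) = tr (h + h') z := by
  funext j
  rcases j with i | i
  · rfl
  · rw [tr_inr, tr_inr, tr_inr, Option.map_map]
    congr 1
    funext c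
    rw [Function.comp_apply, Pi.add_apply, ZMod.cast_add', add_assoc, add_comm (ZMod.cast (h' i))]

theorem tr_neg_tr [CharP N p] (h : Fin n → ZMod p) (z : Fin n ⊕ Fin n → Option N) :
    tr (-h) (tr h z) = z := by
  rw [tr_tr, neg_add_cancel, tr_zero]

/-- translates by a vector which vanishes on the affine coordinates -/
theorem tr_eq_self {h : Fin n → ZMod p} {z : Fin n ⊕ Fin n → Option N}
    (hh : ∀ i ∈ aff z, h i = 0) : tr h z = z := by
  funext j
  rcases j with i | i
  · rfl
  · rw [tr_inr]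
    by_cases hi : z (Sum.inr i) = none
    · rw [hi]
      rfl
    · rw [hh i (mem_aff.2 hi)]
      simp

/-- translates by vectors which agree on the affine coordinates -/
theorem tr_congr {h h' : Fin n → ZMod p} {z : Fin n ⊕ Fin n → Option N}
    (hh : ∀ i ∈ aff z, h i = h' i) : tr h z = tr h' z := by
  funext j
  rcases j with i | i
  · rfl
  · rw [tr_inr, tr_inr]
    by_cases hi : z (Sum.inr i) = none
    · rw [hi]
      rfl
    · rw [hh i (mem_aff.2 hi)]

theorem ec_tr [CharP N p] (ρ h : Fin n → ZMod p) (z : Fin n ⊕ Fin n → Option N) :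
    ec ρ (tr h z) = ec ρ z + ((∑ i ∈ aff z, ρ i * h i : ZMod p)).cast := by
  classical
  have h1 : ((∑ i ∈ aff z, ρ i * h i : ZMod p).cast : N) =
      ∑ i ∈ aff z, ((ρ i).cast : N) * ((h i).cast : N) := by
    have e : ∀ c : ZMod p, (c.cast : N) = ZMod.castHom (dvd_refl p) N c := fun c => rfl
    rw [e, map_sum]
    exact sum_congr rfl fun i _ => by rw [map_mul]; rfl
  rw [h1]
  have h2 : ∑ i ∈ aff z, ((ρ i).cast : N) * ((h i).cast : N) =
      ∑ i, if i ∈ aff z then ((ρ i).cast : N) * ((h i).cast : N) else 0 := by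
    rw [sum_ite_mem, univ_inter]
  rw [h2]
  unfold ec
  rw [← sum_add_distrib]
  refine sum_congr rfl fun i _ => ?_
  by_cases hi : z (Sum.inr i) = none
  · rw [if_neg (fun h0 => mem_aff.1 h0 hi), yc_tr_of_none h hi, yc_of_none hi, add_zero]
  · rw [if_pos (mem_aff.2 hi), yc_tr_of_some h hi, mul_add]

/-- the form of `ec_tr` for a vector `ρ` supported on the affine coordinates -/
theorem ec_tr' [CharP N p] {ρ : Fin n → ZMod p} (h : Fin n → ZMod p)
    {z : Fin n ⊕ Fin n → Option N} (hρ : ∀ i, i ∉ aff z → ρ i = 0) :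
    ec ρ (tr h z) = ec ρ z + ((∑ i, ρ i * h i : ZMod p)).cast := by
  classical
  rw [ec_tr]
  congr 2
  refine sum_subset (subset_univ _) fun i _ hi => ?_
  rw [hρ i hi, zero_mul]

end coord

/-! ### Orthogonal complements -/

section perp

variable {p n : ℕ} [Fact p.Prime]

theorem mem_perp {ρ h : Fin n → ZMod p} : h ∈ perp ρ ↔ ∑ i, ρ i * h i = 0 := by
  unfold perp
  rw [Finset.mem_filter_univ]

theorem perp_zero : perp (0 : Fin n → ZMod p) = univ := by
  ext h
  rw [mem_perp]
  simp

theorem perp_smul {c : ZMod p} (hc : c ≠ 0) (ρ : Fin n → ZMod p) : perp (c • ρ) = perp ρ := by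
  ext h
  rw [mem_perp, mem_perp]
  have h1 : ∑ i, (c • ρ) i * h i = c * ∑ i, ρ i * h i := by
    rw [mul_sum]
    exact sum_congr rfl fun i _ => by rw [Pi.smul_apply, smul_eq_mul, mul_assoc]
  rw [h1, mul_eq_zero, or_iff_right hc]

end perp

/-! ### Translates of points of `X` -/

section X

variable {k : Type} [Field k] {p : ℕ} {n : ℕ} {b : Fin n → k} {r : ℕ}

theorem Bc_tr {N : Type} [Field N] [Algebra k N] [Algebra (RatFunc k) N] (ρ h : Fin n → ZMod p)
    (z : Fin n ⊕ Fin n → Option N) : Bc b ρ (tr h z) = Bc b ρ z := rfl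

theorem SH_zero {N : Type} [Field N] [Algebra (RatFunc k) N] (z : Fin n ⊕ Fin n → Option N) :
    SH p b r {0} z = cl p b r z := by
  unfold SH
  rw [sum_singleton, tr_zero]

theorem SS_smul [Fact p.Prime] {N : Type} [Field N] [Algebra (RatFunc k) N] {c : ZMod p}
    (hc : c ≠ 0) (ρ : Fin n → ZMod p) (z : Fin n ⊕ Fin n → Option N) :
    SS p b r (c • ρ) z = SS p b r ρ z := by
  unfold SS
  rw [perp_smul hc]

theorem SS_zero [Fact p.Prime] {N : Type} [Field N] [Algebra (RatFunc k) N]
    (z : Fin n ⊕ Fin n → Option N) :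
    SS p b r 0 z = ∑ h : Fin n → ZMod p, cl p b r (tr h z) := by
  unfold SS SH
  rw [perp_zero]

variable [Fact p.Prime] [CharP k p]

theorem cast_eq_algebraMap {N : Type} [Field N] [Algebra (RatFunc k) N] (c : ZMod p) :
    (c.cast : N) = algebraMap (RatFunc k) N (c.cast : RatFunc k) :=
  (map_cast (k := k) (p := p) (Algebra.ofId (RatFunc k) N) c).symm

/-- `tr_tr` for fields over `k(t)` -/
theorem tr_add (k : Type) [Field k] [CharP k p] {N : Type} [Field N] [Algebra (RatFunc k) N]
    (h h' : Fin n → ZMod p) (z : Fin n ⊕ Fin n → Option N) :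
    tr h (tr h' z) = tr (h + h') z := by
  have := charP_alg (k := k) (p := p) N
  exact tr_tr h h' z

/-- `ec_tr'` for good points -/
theorem Good.ec_tr {N : Type} [Field N] [Algebra (RatFunc k) N] {I : Finset (Fin n)}
    {z : Fin n ⊕ Fin n → Option N} (hz : Good p b r I z) (hb : ∀ i, b i ≠ 0)
    {ρ : Fin n → ZMod p} (hρ : ∀ i ∉ I, ρ i = 0) (h : Fin n → ZMod p) :
    ec ρ (tr h z) = ec ρ z + ((∑ i, ρ i * h i : ZMod p)).cast := by
  have := charP_alg (k := k) (p := p) N
  refine ec_tr' h fun i hi => hρ i ?_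
  rwa [← hz.aff_eq hb]

section one

variable {N : Type} [Field N] [Algebra (RatFunc k) N]

theorem XV_tr_of (h : Fin n → ZMod p) {z : Fin n ⊕ Fin n → Option N} (hz : XV p b N z) :
    XV p b N (tr h z) := by
  have := charP_alg (k := k) (p := p) N
  intro i
  rcases hz i with ⟨h1, h2⟩ | ⟨a, c, h1, h2, h3⟩
  · left
    exact ⟨(tr_inr_eq_none h z i).2 h1, h2⟩
  · right
    refine ⟨a, c + (h i).cast, h1, by rw [tr_inr, h2]; rfl, ?_⟩
    rw [← h3, add_pow_char (p := p) c, cast_pow_p]
    ring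

theorem XV_tr (h : Fin n → ZMod p) {z : Fin n ⊕ Fin n → Option N} :
    XV p b N (tr h z) ↔ XV p b N z := by
  have := charP_alg (k := k) (p := p) N
  refine ⟨fun h1 => ?_, XV_tr_of h⟩
  have h2 := XV_tr_of (-h) h1
  rwa [tr_neg_tr] at h2

theorem fld_tr_le (h : Fin n → ZMod p) (z : Fin n ⊕ Fin n → Option N) :
    fld (RatFunc k) (tr h z) ≤ fld (RatFunc k) z := by
  unfold fld
  rw [IntermediateField.adjoin_le_iff]
  rintro a ⟨j, hj⟩
  rcases j with i | i
  · exact IntermediateField.subset_adjoin _ _ ⟨Sum.inl i, hj⟩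
  · rw [tr_inr, Option.map_eq_some_iff] at hj
    obtain ⟨c, hc, rfl⟩ := hj
    apply add_mem
    · exact IntermediateField.subset_adjoin _ _ ⟨Sum.inr i, hc⟩
    · rw [cast_eq_algebraMap (k := k)]
      exact IntermediateField.algebraMap_mem _ _

theorem fld_tr (h : Fin n → ZMod p) (z : Fin n ⊕ Fin n → Option N) :
    fld (RatFunc k) (tr h z) = fld (RatFunc k) z := by
  have := charP_alg (k := k) (p := p) N
  refine le_antisymm (fld_tr_le h z) ?_
  have h1 := fld_tr_le (k := k) (-h) (tr h z)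
  rwa [tr_neg_tr] at h1

theorem Good.tr {I : Finset (Fin n)} {z : Fin n ⊕ Fin n → Option N} (hz : Good p b r I z)
    (h : Fin n → ZMod p) : Good p b r I (Helper1.KL.tr h z) where
  mem := XV_tr_of h hz.mem
  aff := fun i hi h0 => hz.aff i hi ((tr_inr_eq_none h z i).1 h0)
  inf := fun i hi => hz.inf i hi
  dim := by rw [fld_tr]; exact hz.dim

theorem spec_tr (v : Place (RatFunc k) N) (h : Fin n → ZMod p) (z : Fin n ⊕ Fin n → Option N) :
    spec v (tr h z) = tr h (spec v z) := by
  classical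
  funext j
  rcases j with i | i
  · rfl
  · rw [tr_inr]
    unfold spec
    rw [tr_inr]
    cases hz : z (Sum.inr i) with
    | none => rfl
    | some a =>
      have hc : ((h i).cast : N) ∈ v.ring := by
        rw [cast_eq_algebraMap (k := k)]
        exact v.ring.algebraMap_mem _
      simp only [Option.map_some, Option.bind_some]
      by_cases ha : a ∈ v.ring
      · rw [if_pos ha, if_pos (add_mem ha hc), Option.map_some, Place.res_add v ha hc]
        congr 2
        rw [cast_eq_algebraMap (k := k), Place.res_algebraMap, ← cast_eq_algebraMap]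
      · rw [if_neg ha, if_neg, Option.map_none]
        intro h1
        apply ha
        have h2 := sub_mem h1 hc
        rwa [add_sub_cancel_right] at h2

/-! ### Sums of classes -/

theorem SH_tr (H : Finset (Fin n → ZMod p)) (h : Fin n → ZMod p)
    (z : Fin n ⊕ Fin n → Option N) :
    SH p b r H (tr h z) = ∑ g ∈ H, cl p b r (tr (g + h) z) := by
  have := charP_alg (k := k) (p := p) N
  unfold SH
  exact sum_congr rfl fun g _ => by rw [tr_tr]

theorem SS_tr {ρ h : Fin n → ZMod p} (hh : h ∈ perp ρ) (z : Fin n ⊕ Fin n → Option N) :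
    SS p b r ρ (tr h z) = SS p b r ρ z := by
  unfold SS
  rw [SH_tr]
  unfold SH
  rw [mem_perp] at hh
  refine sum_bij' (fun g _ => g + h) (fun g _ => g - h) ?_ ?_ ?_ ?_ ?_
  · intro g hg
    rw [mem_perp] at hg ⊢
    simp only [Pi.add_apply, mul_add, sum_add_distrib, hg, hh, add_zero]
  · intro g hg
    rw [mem_perp] at hg ⊢
    simp only [Pi.sub_apply, mul_sub, sum_sub_distrib, hg, hh, sub_zero]
  · intro g _
    exact add_sub_cancel_right g h
  · intro g _
    exact sub_add_cancel g h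
  · intro g _
    rfl

theorem SS_zero_tr (h : Fin n → ZMod p) (z : Fin n ⊕ Fin n → Option N) :
    SS p b r 0 (tr h z) = SS p b r 0 z := by
  apply SS_tr
  rw [perp_zero]
  exact mem_univ _

/-- the translates by two vectors with the same product with `ρ` -/
theorem SS_tr_eq {ρ h h' : Fin n → ZMod p} (hh : ∑ i, ρ i * h i = ∑ i, ρ i * h' i)
    (z : Fin n ⊕ Fin n → Option N) : SS p b r ρ (tr h z) = SS p b r ρ (tr h' z) := by
  have := charP_alg (k := k) (p := p) N
  have h1 : tr h z = tr (h - h') (tr h' z) := by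
    rw [tr_tr, sub_add_cancel]
  rw [h1, SS_tr]
  rw [mem_perp]
  simp only [Pi.sub_apply, mul_sub, sum_sub_distrib, hh, sub_self]

theorem sum_SS_tr {ρ h : Fin n → ZMod p} (hh : ∑ i, ρ i * h i = 1)
    (z : Fin n ⊕ Fin n → Option N) :
    ∑ c : ZMod p, SS p b r ρ (tr (c • h) z) = SS p b r 0 z := by
  have := charP_alg (k := k) (p := p) N
  have hdot : ∀ (c : ZMod p) (g : Fin n → ZMod p), ∑ i, ρ i * (g + c • h) i =
      (∑ i, ρ i * g i) + c := by
    intro c g
    have e1 : ∀ i, ρ i * (g + c • h) i = ρ i * g i + c * (ρ i * h i) := by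
      intro i
      rw [Pi.add_apply, Pi.smul_apply, smul_eq_mul]
      ring
    rw [sum_congr rfl fun i _ => e1 i, sum_add_distrib, ← mul_sum, hh, mul_one]
  rw [SS_zero]
  have h1 : ∀ c : ZMod p, SS p b r ρ (tr (c • h) z) =
      ∑ g : Fin n → ZMod p with ∑ i, ρ i * g i = c, cl p b r (tr g z) := by
    intro c
    unfold SS
    rw [SH_tr]
    refine sum_bij' (fun g _ => g + c • h) (fun g _ => g - c • h) ?_ ?_ ?_ ?_ ?_
    · intro g hg
      rw [mem_perp] at hg
      rw [Finset.mem_filter_univ, hdot, hg, zero_add]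
    · intro g hg
      rw [Finset.mem_filter_univ] at hg
      rw [mem_perp]
      have h2 := hdot c (g - c • h)
      rw [sub_add_cancel, hg] at h2
      exact add_eq_right.1 h2.symm
    · intro g _
      exact add_sub_cancel_right g _
    · intro g _
      exact sub_add_cancel g _
    · intro g _
      rfl
  rw [sum_congr rfl fun c _ => h1 c]
  exact sum_fiberwise univ (fun g : Fin n → ZMod p => ∑ i, ρ i * g i) _

/-- If the reduced points of all translates are the same then `SS ρ z` is a multiple of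
`SS 0 z`. -/
theorem smul_SS_of_key (hS : ModS k p b r) {z : Fin n ⊕ Fin n → Option N} (hz : XV p b N z)
    {ρ : Fin n → ZMod p} (hρ : ρ ≠ 0)
    (hk : ∀ h : Fin n → ZMod p, key (RatFunc k) (red ρ z) = key (RatFunc k) (red ρ (tr h z))) :
    (p : ℚ) • SS p b r ρ z = SS p b r 0 z := by
  classical
  obtain ⟨i, hi⟩ : ∃ i, ρ i ≠ 0 := by
    by_contra hcon
    push Not at hcon
    exact hρ (funext hcon)
  have h1 : ∑ j, ρ j * (Pi.single i (ρ i)⁻¹ : Fin n → ZMod p) j = 1 := by
    rw [sum_eq_single i]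
    · rw [Pi.single_eq_same, mul_inv_cancel₀ hi]
    · intro j _ hj
      rw [Pi.single_eq_of_ne hj, mul_zero]
    · intro h
      exact absurd (mem_univ i) h
  rw [← sum_SS_tr h1 z]
  have h2 : ∀ c : ZMod p, SS p b r ρ (tr (c • (Pi.single i (ρ i)⁻¹ : Fin n → ZMod p)) z) =
      SS p b r ρ z := fun c =>
    ((hS N N z _ ρ hz (XV_tr_of _ hz) (hk _)).1).symm
  rw [sum_congr rfl fun c _ => h2 c, sum_const, card_univ, ZMod.card, ← Nat.cast_smul_eq_nsmul ℚ]

end one

section two

variable {N N' : Type} [Field N] [Field N'] [Algebra (RatFunc k) N] [Algebra (RatFunc k) N']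

/-- The closure of a point determines the closures of its translates. -/
theorem key_tr {z : Fin n ⊕ Fin n → Option N} {z' : Fin n ⊕ Fin n → Option N'}
    (h : key (RatFunc k) z = key (RatFunc k) z') (g : Fin n → ZMod p) :
    key (RatFunc k) (tr g z) = key (RatFunc k) (tr g z') := by
  obtain ⟨φ, hφ⟩ := exists_hom_of_key h
  have h1 : (fun j => (restr (RatFunc k) z j).map φ) = z' := funext hφ
  have h2 : tr g z' = fun j => (tr g (restr (RatFunc k) z) j).map φ := by
    rw [← tr_map φ, h1]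
  have h3 : tr g z = fun j => (tr g (restr (RatFunc k) z) j).map (fld (RatFunc k) z).val := by
    rw [← tr_map (fld (RatFunc k) z).val, restr_map]
  rw [h2, h3, key_map φ, key_map (fld (RatFunc k) z).val]

theorem key_tr_iff {z : Fin n ⊕ Fin n → Option N} {z' : Fin n ⊕ Fin n → Option N'}
    (g : Fin n → ZMod p) :
    key (RatFunc k) (tr g z) = key (RatFunc k) (tr g z') ↔
      key (RatFunc k) z = key (RatFunc k) z' := by
  have := charP_alg (k := k) (p := p) N
  have := charP_alg (k := k) (p := p) N'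
  refine ⟨fun h => ?_, fun h => key_tr h g⟩
  have h1 := key_tr h (-g)
  rwa [tr_neg_tr, tr_neg_tr] at h1

theorem SH_eq_of_key {z : Fin n ⊕ Fin n → Option N} {z' : Fin n ⊕ Fin n → Option N'}
    (h : key (RatFunc k) z = key (RatFunc k) z') (H : Finset (Fin n → ZMod p)) :
    SH p b r H z = SH p b r H z' := by
  unfold SH
  exact sum_congr rfl fun g _ => cl_eq_of_key (key_tr h g)

theorem SS_eq_of_key {z : Fin n ⊕ Fin n → Option N} {z' : Fin n ⊕ Fin n → Option N'}
    (h : key (RatFunc k) z = key (RatFunc k) z') (ρ : Fin n → ZMod p) :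
    SS p b r ρ z = SS p b r ρ z' := SH_eq_of_key h _

theorem key_red_of_key {z : Fin n ⊕ Fin n → Option N} {z' : Fin n ⊕ Fin n → Option N'}
    (h : key (RatFunc k) z = key (RatFunc k) z') (ρ : Fin n → ZMod p) :
    key (RatFunc k) (red ρ z) = key (RatFunc k) (red ρ z') := by
  obtain ⟨φ, hφ⟩ := exists_hom_of_key h
  have h1 : (fun j => (restr (RatFunc k) z j).map φ) = z' := funext hφ
  rw [← key_red_restr ρ z, ← key_red_map φ ρ (restr (RatFunc k) z), h1]

end two

/-! ### The Fourier decomposition -/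

section fourier

variable {N : Type} [Field N] [Algebra (RatFunc k) N]

omit [CharP k p] in
/-- the number of the vectors `ρ` supported in `I` which are orthogonal to `h` -/
theorem card_supp (I : Finset (Fin n)) :
    (univ.filter fun ρ : Fin n → ZMod p => ∀ i ∉ I, ρ i = 0).card = p ^ I.card := by
  classical
  have h1 : (univ.filter fun ρ : Fin n → ZMod p => ∀ i ∉ I, ρ i = 0) =
      Fintype.piFinset fun i => if i ∈ I then univ else {0} := by
    ext ρ
    rw [Finset.mem_filter_univ, Fintype.mem_piFinset]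
    refine forall_congr' fun i => ?_
    by_cases hi : i ∈ I
    · simp [hi]
    · simp [hi]
  rw [h1, Fintype.card_piFinset]
  have h2 : ∀ i : Fin n, (if i ∈ I then (univ : Finset (ZMod p)) else {0}).card =
      if i ∈ I then p else 1 := by
    intro i
    by_cases hi : i ∈ I
    · rw [if_pos hi, if_pos hi, card_univ, ZMod.card]
    · rw [if_neg hi, if_neg hi, card_singleton]
  rw [prod_congr rfl fun i _ => h2 i, prod_ite_mem, univ_inter, prod_const]

omit [CharP k p] in
theorem card_supp_compl (I : Finset (Fin n)) :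
    (univ.filter fun h : Fin n → ZMod p => ∀ i ∈ I, h i = 0).card = p ^ (n - I.card) := by
  classical
  have h1 := card_supp (p := p) (Iᶜ : Finset (Fin n))
  rw [card_compl, Fintype.card_fin] at h1
  rw [← h1]
  congr 1
  ext h
  rw [Finset.mem_filter_univ, Finset.mem_filter_univ]
  refine forall_congr' fun i => ?_
  rw [mem_compl, not_not]

omit [CharP k p] in
/-- the number of the vectors `ρ` supported in `I` which are orthogonal to `h`, times `p` -/
theorem card_perp (I : Finset (Fin n)) {h : Fin n → ZMod p} (hh : ∃ i ∈ I, h i ≠ 0) :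
    p * (univ.filter fun ρ : Fin n → ZMod p => (∀ i ∉ I, ρ i = 0) ∧ h ∈ perp ρ).card =
      p ^ I.card := by
  classical
  obtain ⟨i₀, hi₀, hne⟩ := hh
  set e : Fin n → ZMod p := Pi.single i₀ (h i₀)⁻¹ with he
  have he1 : ∑ i, e i * h i = 1 := by
    rw [sum_eq_single i₀]
    · rw [he, Pi.single_eq_same, inv_mul_cancel₀ hne]
    · intro j _ hj
      rw [he, Pi.single_eq_of_ne hj, zero_mul]
    · intro h
      exact absurd (mem_univ i₀) h
  have he2 : ∀ i ∉ I, e i = 0 := by
    intro i hi
    rw [he, Pi.single_eq_of_ne]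
    rintro rfl
    exact hi hi₀
  have hdot : ∀ (c : ZMod p) (g : Fin n → ZMod p), ∑ i, (g + c • e) i * h i =
      (∑ i, g i * h i) + c := by
    intro c g
    have e1 : ∀ i, (g + c • e) i * h i = g i * h i + c * (e i * h i) := by
      intro i
      rw [Pi.add_apply, Pi.smul_apply, smul_eq_mul]
      ring
    rw [sum_congr rfl fun i _ => e1 i, sum_add_distrib, ← mul_sum, he1, mul_one]
  have h1 : ∀ c : ZMod p,
      ((univ.filter fun ρ : Fin n → ZMod p => ∀ i ∉ I, ρ i = 0).filter
        fun ρ => ∑ i, ρ i * h i = c).card =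
      (univ.filter fun ρ : Fin n → ZMod p => (∀ i ∉ I, ρ i = 0) ∧ h ∈ perp ρ).card := by
    intro c
    refine card_bij' (fun ρ _ => ρ - c • e) (fun ρ _ => ρ + c • e) ?_ ?_ ?_ ?_
    · intro ρ hρ
      rw [Finset.mem_filter, Finset.mem_filter_univ] at hρ
      rw [Finset.mem_filter_univ]
      refine ⟨fun i hi => ?_, ?_⟩
      · rw [Pi.sub_apply, Pi.smul_apply, he2 i hi, hρ.1 i hi, smul_zero, sub_zero]
      · rw [mem_perp]
        have h2 := hdot c (ρ - c • e)
        rw [sub_add_cancel, hρ.2] at h2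
        exact add_eq_right.1 h2.symm
    · intro ρ hρ
      rw [Finset.mem_filter_univ] at hρ
      rw [Finset.mem_filter, Finset.mem_filter_univ]
      refine ⟨fun i hi => ?_, ?_⟩
      · rw [Pi.add_apply, Pi.smul_apply, he2 i hi, hρ.1 i hi, smul_zero, zero_add]
      · rw [hdot, mem_perp.1 hρ.2, zero_add]
    · intro ρ _
      exact sub_add_cancel ρ _
    · intro ρ _
      exact add_sub_cancel_right ρ _
  rw [← card_supp I, card_eq_sum_card_fiberwise
    (s := univ.filter fun ρ : Fin n → ZMod p => ∀ i ∉ I, ρ i = 0) (t := univ)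
    (f := fun ρ => ∑ i, ρ i * h i) (fun _ _ => mem_univ _),
    sum_congr rfl fun c _ => h1 c, sum_const, card_univ, ZMod.card, smul_eq_mul]

omit [CharP k p] in
/-- **The Fourier decomposition.** -/
theorem fourier {z : Fin n ⊕ Fin n → Option N} (hm : 1 ≤ (aff z).card) :
    (∑ ρ : Fin n → ZMod p with ∀ i ∉ aff z, ρ i = 0, SS p b r ρ z) =
      ((p : ℚ) ^ ((aff z).card - 1)) • SS p b r 0 z +
        (((p : ℚ) ^ (aff z).card - (p : ℚ) ^ ((aff z).card - 1)) *
          (p : ℚ) ^ (n - (aff z).card)) • cl p b r z := by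
  classical
  set I := aff z with hI
  have hp : p ≠ 0 := (Fact.out : p.Prime).ne_zero
  have hp0 : (p : ℚ) ≠ 0 := by exact_mod_cast hp
  have h1 : (∑ ρ : Fin n → ZMod p with ∀ i ∉ I, ρ i = 0, SS p b r ρ z) =
      ∑ h : Fin n → ZMod p,
        ((univ.filter fun ρ : Fin n → ZMod p => (∀ i ∉ I, ρ i = 0) ∧ h ∈ perp ρ).card : ℚ) •
          cl p b r (tr h z) := by
    have h2 : ∀ ρ : Fin n → ZMod p, SS p b r ρ z =
        ∑ h : Fin n → ZMod p, if h ∈ perp ρ then cl p b r (tr h z) else 0 := by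
      intro ρ
      unfold SS SH
      rw [sum_ite_mem, univ_inter]
    rw [sum_congr rfl fun ρ _ => h2 ρ, sum_comm]
    refine sum_congr rfl fun h _ => ?_
    rw [← sum_filter, sum_const, Nat.cast_smul_eq_nsmul ℚ, filter_filter]
  have h3 : ∀ h : Fin n → ZMod p,
      ((univ.filter fun ρ : Fin n → ZMod p => (∀ i ∉ I, ρ i = 0) ∧ h ∈ perp ρ).card : ℚ) •
          cl p b r (tr h z) =
        ((p : ℚ) ^ (I.card - 1)) • cl p b r (tr h z) + (if ∀ i ∈ I, h i = 0 then
          ((p : ℚ) ^ I.card - (p : ℚ) ^ (I.card - 1)) • cl p b r z else 0) := by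
    intro h
    by_cases hh : ∀ i ∈ I, h i = 0
    · rw [if_pos hh, tr_eq_self hh, ← add_smul]
      congr 1
      have h4 : (univ.filter fun ρ : Fin n → ZMod p => (∀ i ∉ I, ρ i = 0) ∧ h ∈ perp ρ) =
          univ.filter fun ρ : Fin n → ZMod p => ∀ i ∉ I, ρ i = 0 := by
        ext ρ
        rw [Finset.mem_filter_univ, Finset.mem_filter_univ]
        refine and_iff_left_of_imp fun hρ => ?_
        rw [mem_perp]
        refine sum_eq_zero fun i _ => ?_
        by_cases hi : i ∈ I
        · rw [hh i hi, mul_zero]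
        · rw [hρ i hi, zero_mul]
      rw [h4, card_supp]
      push_cast
      ring
    · rw [if_neg hh, add_zero]
      congr 1
      push Not at hh
      have h5 := card_perp I hh
      have h6 : (p : ℚ) * ((univ.filter fun ρ : Fin n → ZMod p =>
          (∀ i ∉ I, ρ i = 0) ∧ h ∈ perp ρ).card : ℚ) = (p : ℚ) * (p : ℚ) ^ (I.card - 1) := by
        rw [← pow_succ', Nat.sub_add_cancel hm]
        exact_mod_cast h5
      exact mul_left_cancel₀ hp0 h6
  rw [h1, sum_congr rfl fun h _ => h3 h, sum_add_distrib, ← smul_sum, ← SS_zero]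
  congr 1
  rw [← sum_filter, sum_const, card_supp_compl, ← Nat.cast_smul_eq_nsmul ℚ, smul_smul]
  congr 1
  push_cast
  ring

omit [CharP k p] in
/-- The class of a point is a combination of the sums `SS ρ z`, `ρ` supported on the affine
coordinates. -/
theorem cl_mem_span (z : Fin n ⊕ Fin n → Option N) :
    cl p b r z ∈ Submodule.span ℚ
      {q | ∃ ρ : Fin n → ZMod p, (∀ i ∉ aff z, ρ i = 0) ∧ q = SS p b r ρ z} := by
  classical
  have hp0 : (p : ℚ) ≠ 0 := by exact_mod_cast (Fact.out : p.Prime).ne_zero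
  have hp1 : (1 : ℚ) < p := by exact_mod_cast (Fact.out : p.Prime).one_lt
  have hmem : ∀ ρ : Fin n → ZMod p, (∀ i ∉ aff z, ρ i = 0) → SS p b r ρ z ∈ Submodule.span ℚ
      {q | ∃ ρ : Fin n → ZMod p, (∀ i ∉ aff z, ρ i = 0) ∧ q = SS p b r ρ z} :=
    fun ρ hρ => Submodule.subset_span ⟨ρ, hρ, rfl⟩
  rcases Nat.eq_zero_or_pos (aff z).card with h0 | h0
  · have h1 : SS p b r 0 z = ((p : ℚ) ^ n) • cl p b r z := by
      rw [SS_zero]
      have h2 : ∀ h : Fin n → ZMod p, cl p b r (tr h z) = cl p b r z := by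
        intro h
        rw [tr_eq_self]
        intro i hi
        rw [card_eq_zero.1 h0] at hi
        exact absurd hi (notMem_empty i)
      rw [sum_congr rfl fun h _ => h2 h, sum_const, card_univ, Fintype.card_fun, ZMod.card,
        Fintype.card_fin, ← Nat.cast_smul_eq_nsmul ℚ]
      push_cast
      rfl
    have h3 : cl p b r z = ((p : ℚ) ^ n)⁻¹ • SS p b r 0 z := by
      rw [h1, smul_smul, inv_mul_cancel₀ (pow_ne_zero _ hp0), one_smul]
    rw [h3]
    exact Submodule.smul_mem _ _ (hmem 0 fun i _ => rfl)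
  · have h1 := fourier (p := p) (b := b) (r := r) (z := z) h0
    set a : ℚ := ((p : ℚ) ^ (aff z).card - (p : ℚ) ^ ((aff z).card - 1)) *
          (p : ℚ) ^ (n - (aff z).card) with ha
    have ha0 : a ≠ 0 := by
      apply mul_ne_zero _ (pow_ne_zero _ hp0)
      rw [sub_ne_zero]
      exact (pow_lt_pow_right₀ hp1 (by omega)).ne'
    have h2 : a • cl p b r z ∈ Submodule.span ℚ
        {q | ∃ ρ : Fin n → ZMod p, (∀ i ∉ aff z, ρ i = 0) ∧ q = SS p b r ρ z} := by
      have h3 : a • cl p b r z = (∑ ρ : Fin n → ZMod p with ∀ i ∉ aff z, ρ i = 0,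
          SS p b r ρ z) - ((p : ℚ) ^ ((aff z).card - 1)) • SS p b r 0 z := by
        rw [h1]
        abel
      rw [h3]
      refine sub_mem (Submodule.sum_mem _ fun ρ hρ => hmem ρ ((Finset.mem_filter_univ _).1 hρ)) ?_
      exact Submodule.smul_mem _ _ (hmem 0 fun i _ => rfl)
    exact (Submodule.smul_mem_iff _ ha0).1 h2

omit [CharP k p] in
/-- `cl_mem_span` for a good point. -/
theorem Good.cl_mem_span {I : Finset (Fin n)} {z : Fin n ⊕ Fin n → Option N}
    (hz : Good p b r I z) (hb : ∀ i, b i ≠ 0) :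
    cl p b r z ∈ Submodule.span ℚ
      {q | ∃ ρ : Fin n → ZMod p, (∀ i ∉ I, ρ i = 0) ∧ q = SS p b r ρ z} := by
  have h1 := KL.cl_mem_span (p := p) (b := b) (r := r) z
  rwa [hz.aff_eq hb] at h1

end fourier

end X

end Pool.Agent.Helper57.KL
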